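import Pool.Agent.Q189.GB4

/-!
# MP_ff773e_gt: Gaussian measure and balancing constants of translated convex bodies
-/

set_option autoImplicit false

open MeasureTheory ProbabilityTheory Set
open scoped Pointwise

namespace Pool.Agent.Results.MP_ff773e_gt.TranslatesBalance

open Q189.GBDefs Q189.GB

/-- **Theorem.** There is a non-increasing function `f : (0,1) → (0,∞)` such that for every `n ≥ 1`
and every convex body `V` in `ℝ^n`:
(1) the infimum of `β(B, V + x)` over the `x` with `0` in the interior of `V + x` is at most the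
infimum over all `x` of `f (γ(V + x))`;
(2) there is a translate `V + x` of `V` with `0` in its interior such that every `n`-tuple of
vectors of the unit ball has a signed sum in `f (γ(V)) (V + x)`. -/
theorem result : ∃ f : ℝ → ℝ, AntitoneOn f (Ioo 0 1) ∧ (∀ p ∈ Ioo (0 : ℝ) 1, 0 < f p) ∧
    ∀ n : ℕ, 1 ≤ n → ∀ V : Set (EuclideanSpace ℝ (Fin n)), IsConvexBody V →
      infBeta V ≤ ⨅ x : EuclideanSpace ℝ (Fin n), f (gauss (x +ᵥ V)) ∧
      (∀ x : EuclideanSpace ℝ (Fin n), gauss (x +ᵥ V) ∈ Ioo (0 : ℝ) 1) ∧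
      ∃ x : EuclideanSpace ℝ (Fin n), 0 ∈ interior (x +ᵥ V) ∧
        Balances (x +ᵥ V) (f (gauss V)) := by
  refine ⟨bd, ?_, fun p hp => bd_pos hp.1, ?_⟩
  · intro p hp q hq hpq
    exact bd_anti hp.1 hpq
  · intro n hn V hV
    refine ⟨le_ciInf fun x => infBeta_le hV x, fun x => ?_, exists_translate hV⟩
    have hV' := body_vadd hV x
    exact ⟨ENNReal.toReal_pos (gauss_pos_of_interior hV'.2.2).ne' (measure_ne_top _ _),
      gauss_lt_one hn hV'.1⟩

end Pool.Agent.Results.MP_ff773e_gt.TranslatesBalance
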